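import Mathlib

/-!
# Project HH (helper484): hybrid Hammersley / lattice point sets (MP_dc06b6_nt)

Definitions and the exact statements of the parts.  Constants may depend on `s`, `t`, `b`, never on `N`.
-/

set_option autoImplicit false
set_option linter.unusedVariables false

open Finset

namespace Pool.Agent.H484.HH

noncomputable section

/-! ### The problem -/

/-- The radical inverse `φ_b(n) = ∑ a_j b^(-j-1)` of `n = ∑ a_j b^j`, where `a_j = n / b^j % b` is the `j`-th digit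
(for `b ≥ 2` the digits with index `j ≥ n` vanish). -/
def radInv (b n : ℕ) : ℝ := ∑ j ∈ range n, ((n / b ^ j % b : ℕ) : ℝ) / (b : ℝ) ^ (j + 1)

/-- The discrepancy of the points `z 0, ..., z (N-1)` in `[0,1)^ι`: the supremum over all boxes
`∏ [u_i, v_i)` contained in `[0,1)^ι` of `|#{n < N : z n ∈ box} / N - volume|`. -/
def disc {ι : Type} [Fintype ι] (N : ℕ) (z : ℕ → ι → ℝ) : ℝ :=
  sSup {r : ℝ | ∃ u v : ι → ℝ, (∀ i, 0 ≤ u i ∧ u i ≤ v i ∧ v i ≤ 1) ∧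
    r = |(((range N).filter fun n => ∀ i, u i ≤ z n i ∧ z n i < v i).card : ℝ) / N
      - ∏ i, (v i - u i)|}

/-- The point `(n/N, φ_{b_1}(n), ..., φ_{b_s}(n), {n g_1/N}, ..., {n g_t/N})`. -/
def pt {s t : ℕ} (b : Fin s → ℕ) (N : ℕ) (g : Fin t → ℕ) (n : ℕ) : Option (Fin s ⊕ Fin t) → ℝ
  | none => (n : ℝ) / N
  | some (Sum.inl i) => radInv (b i) n
  | some (Sum.inr j) => Int.fract ((n : ℝ) * g j / N)

/-! ### Residue classes modulo `N` -/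

/-- `max(1, |k|)`, where `|k|` is the absolute value of the residue of `k` in `(-N/2, N/2]` -/
def M {N : ℕ} [NeZero N] (k : ZMod N) : ℝ := max 1 (k.valMinAbs.natAbs : ℝ)

/-- Fourier transform -/
def ft {N : ℕ} [NeZero N] (f : ZMod N → ℝ) (k : ZMod N) : ℂ :=
  ∑ x : ZMod N, (f x : ℂ) * ZMod.stdAddChar (-(k * x))

/-- the weight of a frequency at scale `2^j` -/
def W {N : ℕ} [NeZero N] (j : ℕ) (k : ZMod N) : ℝ := 1 / (1 + 2 ^ j * M k / N) ^ 2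

/-- indicator function of the arc `z, z+1, ..., z+ℓ-1` (used for `ℓ ≤ N`) -/
def arc {N : ℕ} [NeZero N] (z : ZMod N) (ℓ : ℕ) (x : ZMod N) : ℝ := if (x - z).val < ℓ then 1 else 0

/-- convolution of two arcs -/
def conv {N : ℕ} [NeZero N] (z : ZMod N) (n n' : ℕ) (x : ZMod N) : ℝ :=
  ∑ i ∈ range n, ∑ i' ∈ range n', if z + (i : ZMod N) + (i' : ZMod N) = x then 1 else 0

/-- normalised volume of the scales `(2^j0, 2^(j 1), ..., 2^(j t))` -/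
def V (N : ℕ) {t : ℕ} (j0 : ℕ) (j : Fin t → ℕ) : ℝ := 2 ^ j0 * ∏ i, ((2 : ℝ) ^ j i / N)

/-- the scales -/
def Js (N t : ℕ) : Finset (Fin t → ℕ) := Fintype.piFinset fun _ : Fin t => range (Nat.log 2 N + 1)

/-- the Fourier side error -/
def SF {N : ℕ} [NeZero N] {t : ℕ} (h : Fin t → ZMod N) : ℝ :=
  ∑ j0 ∈ range (Nat.log 2 N + 1), ∑ j ∈ Js N t,
    if 1 ≤ 2 * V N j0 j ∨ j0 = Nat.log 2 N then
      V N j0 j * ∑ k ∈ univ.filter (fun k : Fin t → ZMod N => k ≠ 0),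
        W j0 (-(∑ i, k i * h i)) * ∏ i, W (j i) (k i)
    else 0

/-- `B` bounds the local discrepancy of the `t`-dimensional sequence `(m h)` for all products of arcs -/
def ArcBd {N : ℕ} [NeZero N] {t : ℕ} (h : Fin t → ZMod N) (B : ℝ) : Prop :=
  ∀ (z0 : ZMod N) (ℓ0 : ℕ) (z : Fin t → ZMod N) (ℓ : Fin t → ℕ), ℓ0 ≤ N → (∀ i, ℓ i ≤ N) →
    |∑ m : ZMod N, arc z0 ℓ0 m * ∏ i, arc (z i) (ℓ i) (h i * m) - ℓ0 * ∏ i, ((ℓ i : ℝ) / N)| ≤ B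

/-- the good generators: no small frequency -/
def good {N : ℕ} [NeZero N] {t : ℕ} (T : ℝ) (h : Fin t → ZMod N) : Prop :=
  ∀ k : Fin t → ZMod N, k ≠ 0 → (N : ℝ) / T ≤ M (-(∑ i, k i * h i)) * ∏ i, M (k i)

/-! ### One dimension -/

/-- KER: Dirichlet kernel.  Geometric sum; `|1 - e(k/N)| = 2 |sin(π |k| / N)| ≥ 4 |k| / N` for `|k| ≤ N/2`. -/
def S_KER : Prop := ∀ (N : ℕ) [NeZero N] (k z : ZMod N) (n : ℕ),
  ‖∑ i ∈ range n, (ZMod.stdAddChar (-(k * (z + (i : ZMod N)))) : ℂ)‖ ≤ n ∧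
  ‖∑ i ∈ range n, (ZMod.stdAddChar (-(k * (z + (i : ZMod N)))) : ℂ)‖ *
    (2 * (k.valMinAbs.natAbs : ℝ)) ≤ N

/-- CB: Fourier transform of a convolution of two arcs.
`ft (conv z n n') k = (∑_{i<n} e(-k(z+i))) (∑_{i'<n'} e(-k i'))`, use KER for both factors.  With `a = 2^j`,
`y = a |k| / N` the product is at most `a^2 min(64, 1/(4 y^2)) ≤ 256 a^2 / (1+y)^2` if `k ≠ 0`; for `k = 0` it is at
most `64 a^2 ≤ 256 a^2 / (1 + a/N)^2` because `a ≤ N`. -/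
def S_CB : Prop := ∀ (N : ℕ) [NeZero N] (z k : ZMod N) (j n n' : ℕ), 2 ^ j ≤ N → n ≤ 8 * 2 ^ j →
  n' ≤ 8 * 2 ^ j → ‖ft (conv z n n') k‖ ≤ 256 * (2 ^ j) ^ 2 * W j k

/-- CF: values of a convolution of two arcs if there is no overlap (natural subtraction):
with `y = (x - z).val < N` one has `i + i' ≤ n + n' - 2 < N`, so `i + i' = y` in `ℕ`, and the number of `i < n` with
`i ≤ y < i + n'` is `min n (y+1) - (y+1-n')`. -/
def S_CF : Prop := ∀ (N : ℕ) [NeZero N] (z : ZMod N) (n n' : ℕ), n + n' ≤ N + 1 → ∀ x : ZMod N,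
  conv z n n' x = ((min n ((x - z).val + 1) - ((x - z).val + 1 - n') : ℕ) : ℝ)

/-- CL: lower bound for a convolution of two arcs (also with overlap): for `y = (x - z).val ≤ m` every `i < m` has the
partner `i' = y + m - 1 - i < 2 m`. -/
def S_CL : Prop := ∀ (N : ℕ) [NeZero N] (z : ZMod N) (m : ℕ), 1 ≤ m → ∀ x : ZMod N,
  (x - z).val ≤ m → (m : ℝ) ≤ conv (z - ((m : ZMod N) - 1)) m (2 * m) x

/-- DEC: decomposition of an arc into tents.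
For `ℓ = 0` everything is zero (`F = P = 0`).  Let `ℓ ≥ 1`, `J = log₂(ℓ+1) - 1`, so `2^(J+1) ≤ ℓ+1 < 2^(J+2)` and `2^J ≤ N`.
* `F_i = 0` for `i > J`; `F_J = 2^(-J) conv(z; 2^J, ℓ+1-2^J)` (a trapezoid);
* `F_i = (2·2^i)^(-1) (conv(z; 2^i, 2^i) + conv(z+ℓ-(2·2^i-1); 2^i, 2^i))` for `i < J` (two tents).
With `R_n(y) = min(1, (y+1)/n)` CF gives, for `x = z + y`, `y < N`: all terms vanish for `y ≥ ℓ`, and for `y < ℓ`
the left tent is `R_n(y) - R_{2n}(y)`, the right one `R_n(ℓ-1-y) - R_{2n}(ℓ-1-y)` (`n = 2^i`), the trapezoid is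
`R_n(y) + R_n(ℓ-1-y) - 1` (`n = 2^J`, `2n ≤ ℓ+1`).  Hence the sum of all `F_i` telescopes to `1` on the arc, and
`∑_{i ≤ j} F_i` is, for `j < J`, supported in the first and the last `2·2^j` points of the arc and `≤ 1` there, and for
`j ≥ J` it is the arc itself, of length `ℓ < 4·2^J ≤ 4·2^j`.
Majorants: by CL, `m^(-1) conv(z' - (m-1); m, 2m) ≥ 1` on `z', ..., z'+m`.  Take `P_j` = sum of the two of them with
`m = 2·2^j` and `z' = z`, `z' = z+ℓ-2·2^j` if `j < J`, and the one with `m = 4·2^j`, `z' = z` if `j ≥ J`.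
The Fourier bounds are CB. -/
def S_DEC : Prop := ∀ (N : ℕ) [NeZero N] (z : ZMod N) (ℓ : ℕ), ℓ ≤ N → ∃ F P : ℕ → ZMod N → ℝ,
  (∀ x, ∑ j ∈ range (Nat.log 2 N + 1), F j x = arc z ℓ x) ∧
  (∀ j x, 0 ≤ F j x) ∧
  (∀ j ≤ Nat.log 2 N, ∀ k, ‖ft (F j) k‖ ≤ 256 * 2 ^ j * W j k) ∧
  (∀ j ≤ Nat.log 2 N, ∀ x, ∑ i ∈ range (j + 1), F i x ≤ P j x) ∧
  (∀ j ≤ Nat.log 2 N, ∀ k, ‖ft (P j) k‖ ≤ 256 * 2 ^ j * W j k)

/-! ### Many dimensions -/

/-- FE: Fourier expansion.  Insert `f_i(h_i m) = N^(-1) ∑_k ft f_i k e(k h_i m)` (inversion on `ZMod N`) and expand the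
product (`Finset.prod_univ_sum`). -/
def S_FE : Prop := ∀ (N : ℕ) [NeZero N] (t : ℕ) (h : Fin t → ZMod N) (f0 : ZMod N → ℝ)
  (f : Fin t → ZMod N → ℝ),
  ((∑ m : ZMod N, f0 m * ∏ i, f i (h i * m) : ℝ) : ℂ) =
    1 / (N : ℂ) ^ t * ∑ k : Fin t → ZMod N, ft f0 (-(∑ i, k i * h i)) * ∏ i, ft (f i) (k i)

/-- PE: the error of a product (FE; the term `k = 0` is the main term). -/
def S_PE : Prop := ∀ (N : ℕ) [NeZero N] (t : ℕ) (h : Fin t → ZMod N) (f0 : ZMod N → ℝ)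
  (f : Fin t → ZMod N → ℝ) (j0 : ℕ) (j : Fin t → ℕ),
  (∀ k, ‖ft f0 k‖ ≤ 256 * 2 ^ j0 * W j0 k) → (∀ i k, ‖ft (f i) k‖ ≤ 256 * 2 ^ j i * W (j i) k) →
  |∑ m : ZMod N, f0 m * ∏ i, f i (h i * m) - (∑ m, f0 m) * ∏ i, ((∑ m, f i m) / (N : ℝ))| ≤
    256 ^ (t + 1) * (V N j0 j * ∑ k ∈ univ.filter (fun k : Fin t → ZMod N => k ≠ 0),
        W j0 (-(∑ i, k i * h i)) * ∏ i, W (j i) (k i)) ∧
  |(∑ m, f0 m) * ∏ i, ((∑ m, f i m) / (N : ℝ))| ≤ 256 ^ (t + 1) * V N j0 j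

/-- MAIN: deterministic bound.  Decompose all arcs by DEC: `arc_0 = ∑ F^0_{j0}`, `arc_i = ∑ F^i_{j_i}`.  Fix
`j = (j_1, ..., j_t) ∈ Js N t` and let `j*` be the largest `j0 ≤ log₂ N` with `V(j0, j) ≤ 1` (it exists because `V(0,j) ≤ 1`).
For `j0 > j*` (then `V > 1`) use PE for `F^0_{j0}, F^i_{j_i}`.  The terms `j0 ≤ j*` are taken together: with
`G = ∑_{j0 ≤ j*} F^0_{j0}` one has `0 ≤ G ≤ P^0_{j*}`, hence
`0 ≤ ∑_m G(m) ∏ F^i(h_i m) ≤ ∑_m P^0_{j*}(m) ∏ F^i(h_i m) ≤ main term of P + error of P` and the main term of `G` lies between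
`0` and the main term of `P`, which is at most `256^(t+1) V(j*,j) ≤ 256^(t+1)`.  Finally `j* = log₂ N` or
`2 V(j*, j) = V(j*+1, j) > 1`, so the scale `(j*, j)` is one of those in `SF`. -/
def S_MAIN : Prop := ∀ (N : ℕ) [NeZero N] (t : ℕ) (h : Fin t → ZMod N),
  ArcBd h (2 * 256 ^ (t + 1) * (((Nat.log 2 N : ℝ) + 1) ^ t + SF h))

/-! ### Averages over the generators -/

/-- CNT: if `k_i ≠ 0` then `h_i` is determined by the other coordinates. -/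
def S_CNT : Prop := ∀ (N : ℕ) [Fact N.Prime] (t : ℕ) (k : Fin t → ZMod N) (r : ZMod N), k ≠ 0 →
  ((univ.filter fun h : Fin t → (ZMod N)ˣ => -(∑ i, k i * (h i : ZMod N)) = r).card : ℝ) * (N - 1) ≤
    ((N : ℝ) - 1) ^ t

/-- AVG: consequence of CNT: `∑_h ∑_{k ≠ 0} φ(-k·h, k) = ∑_{k ≠ 0} ∑_r φ(r, k) #{h : -k·h = r}` and `1/(N-1) ≤ 2/N`. -/
def S_AVG : Prop := ∀ (N : ℕ) [Fact N.Prime] (t : ℕ) (φ : ZMod N → (Fin t → ZMod N) → ℝ),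
  (∀ r k, 0 ≤ φ r k) →
  ∑ h : Fin t → (ZMod N)ˣ, ∑ k ∈ univ.filter (fun k : Fin t → ZMod N => k ≠ 0),
      φ (-(∑ i, k i * (h i : ZMod N))) k ≤
    ((N : ℝ) - 1) ^ t * (2 / N) * ∑ k : Fin t → ZMod N, ∑ r : ZMod N, φ r k

/-- HS: harmonic sum. -/
def S_HS : Prop := ∀ (N : ℕ) [NeZero N], ∑ k : ZMod N, 1 / M k ≤ 3 + 2 * Real.log N

/-- WS: `∑_k (1+y_k)^(-3/2) ≤ 5 N / 2^j` for `y_k = 2^j M(k)/N`.  With `a = 2^j/N ≤ 1`, `q = 1 + a m`, `p = q - a`: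
`1/√p - 1/√q = a / (√p √q (√p+√q)) ≥ a / (2 q √q)`, telescope over `m = 1, ..., N/2`, twice; the term `k = 0` is `≤ 1`. -/
def S_WS : Prop := ∀ (N : ℕ) [NeZero N] (j : ℕ), 2 ^ j ≤ N →
  ∑ k : ZMod N, 1 / ((1 + 2 ^ j * M k / N) * Real.sqrt (1 + 2 ^ j * M k / N)) ≤ 5 * (N / 2 ^ j)

/-- DYAD: `2^j x` between `1/2` and `T`: at most `2 + log₂ T` values of `j`; the others form a geometric series. -/
def S_DYAD : Prop := ∀ (x T : ℝ) (J : ℕ), 0 < x → 1 ≤ T →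
  ∑ j ∈ (range J).filter (fun j => 1 ≤ 2 * (2 ^ j * x)), min 1 (Real.sqrt (T / (2 ^ j * x))) ≤
    10 * (1 + Real.log T)

/-- BAD: few bad generators.  A bad `h` has a `k ≠ 0` with `M(r) ∏ M(k_i) < X = N/T`, `r = -k·h`.  By AVG with the indicator
function `φ`, the number of bad `h` is at most `(N-1)^t (2/N) #{(r,k) : M(r) ∏ M(k_i) < X}`; for given `k` the number of `r`
is at most `3 X / ∏ M(k_i)` (it is `0` if `X / ∏ M(k_i) ≤ 1`), and `∑_k ∏ 1/M(k_i) = (∑ 1/M)^t ≤ (3 + 2 log N)^t` by HS. -/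
def S_BAD : Prop := ∀ (N : ℕ) [Fact N.Prime] (t : ℕ) (T : ℝ), 1 ≤ T →
  (Nat.card {h : Fin t → (ZMod N)ˣ // ¬ good T fun i => (h i : ZMod N)} : ℝ) * T ≤
    6 * (3 + 2 * Real.log N) ^ t * ((N : ℝ) - 1) ^ t

/-- TERM: one scale.  If `h` is good and `k ≠ 0`, then with `y_0 = 2^j0 M(r)/N` (`r = -k·h`), `y_i = 2^(j_i) M(k_i)/N` one has
`y_0 y_1 ⋯ y_t = V/N · M(r) ∏ M(k_i) ≥ V/T`, so `∏ (1+y)^(-2) ≤ ∏ (1+y)^(-3/2) · min(1, √(T/V))`.  Sum over `h` with AVG, then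
`∑_k ∏` factorizes, each factor `≤ 5 N / 2^(j_i)` by WS, and `∏_{i=0..t} N / 2^(j_i) = N / V`. -/
def S_TERM : Prop := ∀ (N : ℕ) [Fact N.Prime] (t : ℕ) (T : ℝ) (j0 : ℕ) (j : Fin t → ℕ), 1 ≤ T →
  j0 ≤ Nat.log 2 N → j ∈ Js N t →
  ∀ G : Finset (Fin t → (ZMod N)ˣ), (∀ h ∈ G, good T fun i => (h i : ZMod N)) →
  ∑ h ∈ G, V N j0 j * ∑ k ∈ univ.filter (fun k : Fin t → ZMod N => k ≠ 0),
        W j0 (-(∑ i, k i * (h i : ZMod N))) * ∏ i, W (j i) (k i) ≤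
    2 * 5 ^ (t + 1) * ((N : ℝ) - 1) ^ t * min 1 (Real.sqrt (T / V N j0 j))

/-- EXP: average of `SF` over good generators (TERM, DYAD; the scale `j0 = log₂ N` gives at most one more term, `≤ 1`). -/
def S_EXP : Prop := ∀ (N : ℕ) [Fact N.Prime] (t : ℕ) (T : ℝ), 1 ≤ T →
  ∀ G : Finset (Fin t → (ZMod N)ˣ), (∀ h ∈ G, good T fun i => (h i : ZMod N)) →
  ∑ h ∈ G, SF (fun i => (h i : ZMod N)) ≤
    2 * 5 ^ (t + 1) * ((N : ℝ) - 1) ^ t * ((Nat.log 2 N : ℝ) + 1) ^ t * (11 + 10 * Real.log T)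

/-- the set of the exponent vectors of the denominators -/
def Ks (N s : ℕ) : Finset (Fin s → ℕ) := Fintype.piFinset fun _ : Fin s => range (Nat.log 2 N + 2)

/-- CHO: choice of the generator.  Let `κ = (log₂ N + 2)^s` be the number of `k ∈ Ks N s`, `L = 3 + 2 log N` and
`T = 12 κ L^t`.  For every unit `Q` the map `g ↦ Q g` is a bijection, so by BAD at most `(N-1)^t κ 6 L^t / T = (N-1)^t / 2` of
the `g` are such that `Q_k g` is bad for some `k`.  By EXP the sum over the remaining `g` (at least `(N-1)^t/2`) of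
`∑_k SF(Q_k g)` is at most `κ 2·5^(t+1) (N-1)^t (log₂ N + 1)^t (11 + 10 log T)`, so some `g` has
`∑_k SF(Q_k g) ≤ 4·5^(t+1) κ (log₂ N + 1)^t (11 + 10 log T)`. -/
def S_CHO : Prop := ∀ (s t : ℕ), ∃ C : ℝ, 0 ≤ C ∧ ∀ (N : ℕ) [Fact N.Prime] (b : Fin s → ℕ),
  (∀ i, (b i).Coprime N) →
  ∃ g : Fin t → (ZMod N)ˣ,
    ∑ k ∈ Ks N s, SF (fun j => (((∏ i, b i ^ k i : ℕ) : ZMod N)) * (g j : ZMod N)) ≤
      C * ((Nat.log 2 N : ℝ) + 2) ^ (s + t) * (1 + Real.log ((Nat.log 2 N : ℝ) + 2))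

/-! ### The Halton part -/

/-- HAL: elementary intervals.  First for `[0, v)`: induction on `K` with `n = a_0 + b n'`,
`φ_b(n) = (a_0 + φ_b(n'))/b`; let `c = ⌊b v⌋ < b` (the case `v = 1` is the single class modulo `b^0`): `φ_b(n) < v` iff `a_0 < c`
or (`a_0 = c` and `φ_b(n') < b v - c`).  The coefficients are indicator functions of sets of at most `b` classes for each `k`.
Then subtract the decompositions for `[0, v)` and `[0, u)`. -/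
def S_HAL : Prop := ∀ (b : ℕ), 2 ≤ b → ∀ (K : ℕ) (u v : ℝ), 0 ≤ u → u ≤ v → v ≤ 1 →
  ∃ c : ℕ → ℕ → ℝ,
    (∀ n < b ^ K, (if u ≤ radInv b n ∧ radInv b n < v then (1 : ℝ) else 0) =
      ∑ k ∈ range (K + 1), ∑ a ∈ range (b ^ k), c k a * (if n % b ^ k = a then 1 else 0)) ∧
    (∀ k, ∑ a ∈ range (b ^ k), |c k a| ≤ 2 * b) ∧
    |(v - u) - ∑ k ∈ range (K + 1), ∑ a ∈ range (b ^ k), c k a / (b : ℝ) ^ k| ≤ 2 / (b : ℝ) ^ K

/-- CRT: Chinese remainder theorem. -/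
def S_CRT : Prop := ∀ (s : ℕ) (b : Fin s → ℕ), (∀ i, (b i).Prime) → Function.Injective b →
  ∀ (k a : Fin s → ℕ), (∀ i, a i < b i ^ k i) →
  ∃ a0 < ∏ i, b i ^ k i, ∀ n : ℕ, (∀ i, n % b i ^ k i = a i) ↔ n % (∏ i, b i ^ k i) = a0

/-- CLS: one residue class modulo `Q`.  Write `n = a0 + Q m`; the `n` in question correspond to an interval of `ℓ0` values
of `m`, `|ℓ0 - (m2-m1)/Q| ≤ 1`, `ℓ0 ≤ N`; in `ZMod N` the condition `u_j ≤ {n g_j/N} < v_j` says that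
`a0 g_j + (Q g_j) m` lies in the arc of the residues from `⌈u_j N⌉` to `⌈v_j N⌉ - 1`, whose length differs from
`(v_j - u_j) N` by at most `1`. -/
def S_CLS : Prop := ∀ (N : ℕ) [NeZero N] (t : ℕ) (g : Fin t → ℕ) (Q a0 : ℕ) (B : ℝ), 0 < Q → a0 < Q →
  ArcBd (fun j => ((Q : ZMod N)) * (g j : ZMod N)) B →
  ∀ (m1 m2 : ℕ) (u v : Fin t → ℝ), m1 ≤ m2 → m2 ≤ N → (∀ i, 0 ≤ u i ∧ u i ≤ v i ∧ v i ≤ 1) →
  |(((Ico m1 m2).filter fun n => n % Q = a0 ∧ ∀ j, u j ≤ Int.fract ((n : ℝ) * g j / N) ∧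
      Int.fract ((n : ℝ) * g j / N) < v j).card : ℝ) -
    ((m2 : ℝ) - m1) / Q * ∏ j, (v j - u j)| ≤ B + (t + 1)

/-- BOX: sum over the classes.  For a box let `m1 = ⌈u_0 N⌉`, `m2 = ⌈v_0 N⌉`, `K = log₂ N + 1` (so `N ≤ b_i^K`).
Expand the product over `i` of the identities HAL, first over `k ∈ Ks N s`, then over the residues `a`
(`Finset.prod_univ_sum`), apply CRT and CLS with `Q_k = ∏ b_i^(k_i)`.  The errors sum up to
`∏ (2 b_i) ∑_k (B_k + t + 1)`; the main terms give `(m2 - m1) ∏_j (v_j - u_j) ∏_i (∑_k ∑_a c_i(k,a)/b_i^k)`, which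
differs from `N` times the volume by `O(1)`. -/
def S_BOX : Prop := ∀ (s t : ℕ) (b : Fin s → ℕ), (∀ i, (b i).Prime) → Function.Injective b →
  ∃ C : ℝ, 0 ≤ C ∧ ∀ (N : ℕ) [NeZero N] (g : Fin t → ℕ) (B : (Fin s → ℕ) → ℝ),
  (∀ k ∈ Ks N s, ArcBd (fun j => (((∏ i, b i ^ k i : ℕ) : ZMod N)) * (g j : ZMod N)) (B k)) →
  (N : ℝ) * disc N (pt b N g) ≤ C * (((Nat.log 2 N : ℝ) + 2) ^ s + ∑ k ∈ Ks N s, B k)

/-! ### The result -/

/-- FIN: the strong form of the answer. -/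
def S_FIN : Prop := ∀ (s t : ℕ) (b : Fin s → ℕ), 1 ≤ s → 1 ≤ t → (∀ i, (b i).Prime) → Function.Injective b →
  ∃ C : ℝ, ∀ N : ℕ, N.Prime → (∀ i, b i ≠ N) → ∃ g : Fin t → ℕ, (∀ j, 1 ≤ g j ∧ g j ≤ N - 1) ∧
    disc N (pt b N g) ≤ C * (Real.log N ^ (s + t) * Real.log (2 + Real.log N) / N)

end

end Pool.Agent.H484.HH
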