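import Pool.Agent.H484.HH.Stm

set_option autoImplicit false

open Finset

namespace Pool.Agent.H484.HH

namespace BADAux

theorem one_le_M {N : ℕ} [NeZero N] (k : ZMod N) : 1 ≤ M k := le_max_left _ _

theorem count {N : ℕ} [NeZero N] (Y : ℝ) (hY : 0 < Y) :
    ((univ.filter fun r : ZMod N => M r < Y).card : ℝ) ≤ 3 * Y := by
  classical
  by_cases h1 : Y ≤ 1
  · have : (univ.filter fun r : ZMod N => M r < Y) = ∅ := by
      apply Finset.filter_eq_empty_iff.2
      intro r _
      have := one_le_M r
      linarith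
    rw [this]
    simp
    linarith
  push Not at h1
  set m : ℕ := ⌊Y⌋₊ with hm
  have hmY : (m : ℝ) ≤ Y := Nat.floor_le hY.le
  have hle : (univ.filter fun r : ZMod N => M r < Y).card ≤ (Finset.Icc (-(m : ℤ)) m).card := by
    refine card_le_card_of_injOn (fun k => k.valMinAbs) ?_ ?_
    · intro r hr
      have h2 := (mem_filter.1 (mem_coe.1 hr)).2
      have h3 : (r.valMinAbs.natAbs : ℝ) ≤ Y := (le_max_right _ _).trans h2.le
      have h4 : r.valMinAbs.natAbs ≤ m := Nat.le_floor h3
      show r.valMinAbs ∈ ((Finset.Icc (-(m : ℤ)) m : Finset ℤ) : Set ℤ)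
      rw [mem_coe, mem_Icc]
      constructor <;> omega
    · exact fun a _ b _ hab => ZMod.injective_valMinAbs hab
  have hc : (Finset.Icc (-(m : ℤ)) m).card = 2 * m + 1 := by
    rw [Int.card_Icc]
    omega
  rw [hc] at hle
  have : ((univ.filter fun r : ZMod N => M r < Y).card : ℝ) ≤ 2 * m + 1 := by exact_mod_cast hle
  linarith

end BADAux

open BADAux

theorem t_BAD (hAVG : S_AVG) (hHS : S_HS) : S_BAD := by
  classical
  intro N _ t T hT
  have hN2 : (2 : ℝ) ≤ N := by exact_mod_cast (Fact.out : N.Prime).two_le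
  have hN0 : (0 : ℝ) < N := by linarith
  have hT0 : 0 < T := by linarith
  set X : ℝ := (N : ℝ) / T with hX
  have hX0 : 0 < X := by positivity
  set φ : ZMod N → (Fin t → ZMod N) → ℝ := fun r k => if M r * ∏ i, M (k i) < X then 1 else 0 with hφ
  have hφ0 : ∀ r k, 0 ≤ φ r k := by
    intro r k
    simp only [hφ]
    split_ifs <;> norm_num
  have h1 := hAVG N t φ hφ0
  have hcard : (Nat.card {h : Fin t → (ZMod N)ˣ // ¬ good T fun i => (h i : ZMod N)} : ℝ) ≤
      ∑ h : Fin t → (ZMod N)ˣ, ∑ k ∈ univ.filter (fun k : Fin t → ZMod N => k ≠ 0),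
        φ (-(∑ i, k i * (h i : ZMod N))) k := by
    rw [Nat.card_eq_fintype_card, Fintype.card_subtype, Finset.card_filter]
    push_cast
    apply Finset.sum_le_sum
    intro h _
    by_cases hg : good T fun i => (h i : ZMod N)
    swap
    · rw [if_pos hg]
      have hb := hg
      unfold good at hb
      push Not at hb
      obtain ⟨k, hk, hlt⟩ := hb
      have hmem : k ∈ univ.filter (fun k : Fin t → ZMod N => k ≠ 0) := by simp [hk]
      refine le_trans ?_ (Finset.single_le_sum (fun k _ => hφ0 _ k) hmem)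
      simp only [hφ]
      rw [if_pos hlt]
    · rw [if_neg (not_not.2 hg)]
      exact Finset.sum_nonneg fun k _ => hφ0 _ k
  have hsum : ∑ k : Fin t → ZMod N, ∑ r : ZMod N, φ r k ≤ 3 * X * (3 + 2 * Real.log N) ^ t := by
    have hone : ∀ k : Fin t → ZMod N, ∑ r : ZMod N, φ r k ≤ 3 * X * ∏ i, (1 / M (k i)) := by
      intro k
      have hP : 0 < ∏ i, M (k i) := Finset.prod_pos fun i _ => lt_of_lt_of_le one_pos (one_le_M _)
      have e : ∑ r : ZMod N, φ r k = ((univ.filter fun r : ZMod N => M r < X / ∏ i, M (k i)).card : ℝ) := by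
        rw [Finset.card_filter]
        push_cast
        apply Finset.sum_congr rfl
        intro r _
        simp only [hφ]
        by_cases hr : M r * ∏ i, M (k i) < X
        · rw [if_pos hr, if_pos ((lt_div_iff₀ hP).2 hr)]
        · rw [if_neg hr, if_neg (fun h => hr ((lt_div_iff₀ hP).1 h))]
      rw [e]
      refine (count _ (by positivity)).trans (le_of_eq ?_)
      rw [Finset.prod_div_distrib]
      simp
      ring
    refine (Finset.sum_le_sum fun k _ => hone k).trans ?_
    rw [← Finset.mul_sum]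
    apply mul_le_mul_of_nonneg_left _ (by positivity)
    have e2 : ∑ k : Fin t → ZMod N, ∏ i, (1 / M (k i)) = ∏ i : Fin t, ∑ k : ZMod N, 1 / M k := by
      rw [Finset.prod_univ_sum]
      simp
    rw [e2, Finset.prod_const, Finset.card_univ, Fintype.card_fin]
    exact pow_le_pow_left₀ (Finset.sum_nonneg fun k _ => by
      have := one_le_M k
      positivity) (hHS N) t
  have hpow : (0 : ℝ) ≤ ((N : ℝ) - 1) ^ t := by
    have : (0 : ℝ) ≤ (N : ℝ) - 1 := by linarith
    positivity
  have h3 := (hcard.trans h1).trans (mul_le_mul_of_nonneg_left hsum (by positivity))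
  have h4 := mul_le_mul_of_nonneg_right h3 hT0.le
  refine h4.trans (le_of_eq ?_)
  rw [hX]
  field_simp
  ring

end Pool.Agent.H484.HH
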