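import Pool.Agent.H484.HH.Fin
import Pool.Agent.H190.HH.KER
import Pool.Agent.H264.HH.CB
import Pool.Agent.H746.HH.CF
import Pool.Agent.H278.HH.CL
import Pool.Agent.H935.HH.DEC
import Pool.Agent.H161.HH.FE
import Pool.Agent.H597.HH.PE
import Pool.Agent.H399.HH.MAIN
import Pool.Agent.H323.HH.CNT
import Pool.Agent.H707.HH.AVG
import Pool.Agent.H975.HH.HS
import Pool.Agent.H553.HH.WS
import Pool.Agent.H603.HH.DYAD
import Pool.Agent.H484.HH.BAD
import Pool.Agent.H746.HH.TERM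
import Pool.Agent.H155.HH.EXP
import Pool.Agent.H323.HH.CHO
import Pool.Agent.H261.HH.HAL
import Pool.Agent.H271.HH.CRT
import Pool.Agent.H358.HH.CLS
import Pool.Agent.H97.HH.BOX

set_option autoImplicit false

namespace Pool.Agent.H484.HH

theorem t_FIN : S_FIN :=
  fin (t_MAIN (t_DEC (t_CB t_KER) t_CF t_CL) (t_PE t_FE))
    (t_CHO (t_BAD (t_AVG t_CNT) t_HS) (t_EXP (t_TERM (t_AVG t_CNT) t_WS) t_DYAD))
    (t_BOX t_HAL t_CRT t_CLS)

end Pool.Agent.H484.HH
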