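import Pool.Agent.H484.HH.Stm

set_option autoImplicit false
set_option linter.unusedVariables false

open Finset

namespace Pool.Agent.H484.HH

/-- `log (2 + x) ≤ C x^ε` for `x ≥ log 2` -/
theorem log_le_rpow (ε : ℝ) (hε : 0 < ε) : ∃ C : ℝ, 0 ≤ C ∧ ∀ x : ℝ, Real.log 2 ≤ x →
    Real.log (2 + x) ≤ C * x ^ ε := by
  have hl2 : (0.69 : ℝ) < Real.log 2 := by
    have := Real.log_two_gt_d9
    linarith
  refine ⟨(5 : ℝ) ^ ε / ε, by positivity, ?_⟩
  intro x hx
  have hx0 : 0 < x := by linarith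
  have h1 : Real.log (2 + x) ≤ (2 + x) ^ ε / ε := Real.log_le_rpow_div (by linarith) hε
  have h2 : (2 + x) ^ ε ≤ (5 * x) ^ ε := Real.rpow_le_rpow (by linarith) (by linarith) hε.le
  rw [Real.mul_rpow (by norm_num) hx0.le] at h2
  calc Real.log (2 + x) ≤ (2 + x) ^ ε / ε := h1
    _ ≤ ((5 : ℝ) ^ ε * x ^ ε) / ε := div_le_div_of_nonneg_right h2 hε.le
    _ = _ := by ring

/-- the literal form of Q1 from the strong form -/
theorem eps (h : S_FIN) : ∀ (s t : ℕ) (b : Fin s → ℕ), 1 ≤ s → 1 ≤ t → (∀ i, (b i).Prime) →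
    Function.Injective b → ∀ ε : ℝ, 0 < ε → ∃ C : ℝ, ∀ N : ℕ, N.Prime → (∀ i, b i ≠ N) →
    ∃ g : Fin t → ℕ, (∀ j, 1 ≤ g j ∧ g j ≤ N - 1) ∧
      disc N (pt b N g) ≤ C * (Real.log N ^ ((s : ℝ) + t + ε) / N) := by
  intro s t b hs ht hb hinj ε hε
  obtain ⟨C, hC⟩ := h s t b hs ht hb hinj
  obtain ⟨D, hD, hlog⟩ := log_le_rpow ε hε
  refine ⟨max C 0 * D, ?_⟩
  intro N hN hbN
  obtain ⟨g, hg, hd⟩ := hC N hN hbN
  refine ⟨g, hg, hd.trans ?_⟩
  have hN2 : (2 : ℝ) ≤ N := by exact_mod_cast hN.two_le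
  have hlogN : Real.log 2 ≤ Real.log N := Real.log_le_log (by norm_num) hN2
  have hl2 : (0.69 : ℝ) < Real.log 2 := by
    have := Real.log_two_gt_d9
    linarith
  have hx0 : 0 < Real.log N := by linarith
  have h1 := hlog (Real.log N) hlogN
  have hll : 0 ≤ Real.log (2 + Real.log N) := Real.log_nonneg (by linarith)
  have e : Real.log N ^ ((s : ℝ) + t + ε) = Real.log N ^ (s + t) * Real.log N ^ ε := by
    rw [Real.rpow_add hx0, ← Nat.cast_add, Real.rpow_natCast]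
  rw [e]
  have hNpos : (0 : ℝ) < N := by linarith
  calc C * (Real.log N ^ (s + t) * Real.log (2 + Real.log N) / N)
      ≤ max C 0 * (Real.log N ^ (s + t) * Real.log (2 + Real.log N) / N) :=
        mul_le_mul_of_nonneg_right (le_max_left _ _) (by positivity)
    _ ≤ max C 0 * (Real.log N ^ (s + t) * (D * Real.log N ^ ε) / N) := by
        apply mul_le_mul_of_nonneg_left _ (le_max_right _ _)
        apply div_le_div_of_nonneg_right _ hNpos.le
        exact mul_le_mul_of_nonneg_left h1 (by positivity)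
    _ = _ := by ring

end Pool.Agent.H484.HH
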