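import Pool.Agent.H484.HH.Stm

set_option autoImplicit false
set_option linter.unusedVariables false

open Finset

namespace Pool.Agent.H484.HH

theorem card_Ks (N s : ℕ) : (Ks N s).card = (Nat.log 2 N + 2) ^ s := by
  unfold Ks
  rw [Fintype.card_piFinset]
  simp

theorem fin (hM : S_MAIN) (hC : S_CHO) (hB : S_BOX) : S_FIN := by
  intro s t b hs ht hb hinj
  obtain ⟨C1, hC1, h1⟩ := hB s t b hb hinj
  obtain ⟨C2, hC2, h2⟩ := hC s t
  refine ⟨C1 * (1 + 2 * 256 ^ (t + 1) * (1 + C2)) * (5 ^ (s + t) * 5), ?_⟩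
  intro N hN hbN
  have : Fact N.Prime := ⟨hN⟩
  have : NeZero N := ⟨hN.ne_zero⟩
  have hcop : ∀ i, (b i).Coprime N := fun i => (Nat.coprime_primes (hb i) hN).2 (hbN i)
  obtain ⟨g0, hg0⟩ := h2 N b hcop
  refine ⟨fun j => (g0 j : ZMod N).val, ?_, ?_⟩
  · intro j
    have hne : (g0 j : ZMod N) ≠ 0 := (g0 j).ne_zero
    have h0 : (g0 j : ZMod N).val ≠ 0 := by
      intro h
      exact hne ((ZMod.val_eq_zero _).1 h)
    have hlt := ZMod.val_lt (g0 j : ZMod N)
    show 1 ≤ (g0 j : ZMod N).val ∧ (g0 j : ZMod N).val ≤ N - 1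
    omega
  have hk := h1 N (fun j => (g0 j : ZMod N).val)
    (fun k => 2 * 256 ^ (t + 1) * (((Nat.log 2 N : ℝ) + 1) ^ t +
      SF (fun j => (((∏ i, b i ^ k i : ℕ) : ZMod N)) * (g0 j : ZMod N)))) ?_
  swap
  · intro k _
    have := hM N t (fun j => (((∏ i, b i ^ k i : ℕ) : ZMod N)) * (g0 j : ZMod N))
    simpa using this
  set lg : ℝ := (Nat.log 2 N : ℝ) with hlg
  have hlg0 : 0 ≤ lg := by positivity
  have hsum : ∑ k ∈ Ks N s, 2 * 256 ^ (t + 1) * ((lg + 1) ^ t +
      SF (fun j => (((∏ i, b i ^ k i : ℕ) : ZMod N)) * (g0 j : ZMod N))) ≤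
      2 * 256 ^ (t + 1) * ((lg + 2) ^ (s + t) + C2 * (lg + 2) ^ (s + t) * (1 + Real.log (lg + 2))) := by
    rw [← Finset.mul_sum]
    apply mul_le_mul_of_nonneg_left _ (by positivity)
    rw [Finset.sum_add_distrib]
    refine add_le_add ?_ hg0
    rw [Finset.sum_const, card_Ks, nsmul_eq_mul]
    push_cast
    rw [← hlg, pow_add]
    apply mul_le_mul_of_nonneg_left _ (by positivity)
    exact pow_le_pow_left₀ (by linarith) (by linarith) t
  have hN2 : (2 : ℝ) ≤ N := by exact_mod_cast hN.two_le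
  have hlogN : Real.log 2 ≤ Real.log N := Real.log_le_log (by norm_num) hN2
  have hl2 : (0.69 : ℝ) < Real.log 2 := by
    have := Real.log_two_gt_d9
    linarith
  have hlgle : lg * Real.log 2 ≤ Real.log N := by
    have h := Nat.pow_log_le_self 2 hN.ne_zero
    have h' : ((2 : ℝ) ^ Nat.log 2 N) ≤ N := by exact_mod_cast h
    have h'' := Real.log_le_log (by positivity) h'
    rwa [Real.log_pow] at h''
  have hlgN : lg + 2 ≤ 5 * Real.log N := by
    have : lg * 0.69 ≤ Real.log N := by nlinarith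
    nlinarith
  have hlogN0 : 0 < Real.log N := by linarith
  have hL2 : (0.69 : ℝ) < Real.log (2 + Real.log N) :=
    lt_of_lt_of_le hl2 (Real.log_le_log (by norm_num) (by linarith))
  have hlog5 : Real.log 5 ≤ 1.7 := by
    rw [Real.log_le_iff_le_exp (by norm_num)]
    have h1 : (2.7182818283 : ℝ) < Real.exp 1 := Real.exp_one_gt_d9
    have h2 : Real.exp 1.7 = Real.exp 1 * Real.exp 0.7 := by
      rw [← Real.exp_add]; norm_num
    have h3 : (0.7 : ℝ) + 1 + 0.7 ^ 2 / 2 ≤ Real.exp 0.7 := by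
      have := Real.quadratic_le_exp_of_nonneg (x := 0.7) (by norm_num)
      linarith
    rw [h2]
    nlinarith
  have hlogl : 1 + Real.log (lg + 2) ≤ 5 * Real.log (2 + Real.log N) := by
    have h1 : Real.log (lg + 2) ≤ Real.log (5 * (2 + Real.log N)) :=
      Real.log_le_log (by linarith) (by linarith)
    rw [Real.log_mul (by norm_num) (by linarith)] at h1
    nlinarith
  have hp : (lg + 2) ^ (s + t) ≤ 5 ^ (s + t) * Real.log N ^ (s + t) := by
    rw [← mul_pow]
    exact pow_le_pow_left₀ (by linarith) hlgN _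
  have hll : 0 ≤ Real.log (lg + 2) := Real.log_nonneg (by linarith)
  have hp0 : 0 ≤ (lg + 2) ^ (s + t) := by positivity
  have hps : (lg + 2) ^ s ≤ (lg + 2) ^ (s + t) := pow_le_pow_right₀ (by linarith) (by omega)
  have key : (N : ℝ) * disc N (pt b N fun j => (g0 j : ZMod N).val) ≤
      C1 * (1 + 2 * 256 ^ (t + 1) * (1 + C2)) * ((lg + 2) ^ (s + t) * (1 + Real.log (lg + 2))) := by
    refine hk.trans ?_
    rw [mul_assoc]
    apply mul_le_mul_of_nonneg_left _ hC1
    refine (add_le_add hps hsum).trans ?_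
    have e1 : (lg + 2) ^ (s + t) ≤ (lg + 2) ^ (s + t) * (1 + Real.log (lg + 2)) := by nlinarith
    have e2 : (0 : ℝ) ≤ 2 * 256 ^ (t + 1) := by positivity
    calc (lg + 2) ^ (s + t) + 2 * 256 ^ (t + 1) * ((lg + 2) ^ (s + t) +
          C2 * (lg + 2) ^ (s + t) * (1 + Real.log (lg + 2)))
        ≤ (lg + 2) ^ (s + t) * (1 + Real.log (lg + 2)) + 2 * 256 ^ (t + 1) *
          ((lg + 2) ^ (s + t) * (1 + Real.log (lg + 2)) +
            C2 * (lg + 2) ^ (s + t) * (1 + Real.log (lg + 2))) :=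
          add_le_add e1 (mul_le_mul_of_nonneg_left (by linarith) e2)
      _ = _ := by ring
  have hNpos : (0 : ℝ) < N := by linarith
  rw [← mul_div_assoc, le_div_iff₀ hNpos, mul_comm]
  refine key.trans ?_
  have e3 : (lg + 2) ^ (s + t) * (1 + Real.log (lg + 2)) ≤
      (5 ^ (s + t) * Real.log N ^ (s + t)) * (5 * Real.log (2 + Real.log N)) :=
    mul_le_mul hp hlogl (by linarith) (by positivity)
  calc C1 * (1 + 2 * 256 ^ (t + 1) * (1 + C2)) * ((lg + 2) ^ (s + t) * (1 + Real.log (lg + 2)))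
      ≤ C1 * (1 + 2 * 256 ^ (t + 1) * (1 + C2)) *
        ((5 ^ (s + t) * Real.log N ^ (s + t)) * (5 * Real.log (2 + Real.log N))) :=
        mul_le_mul_of_nonneg_left e3 (by positivity)
    _ = _ := by ring

end Pool.Agent.H484.HH
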